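import Mathlib
import Pool.Agent.H148R3.Key

/-! A second key lemma: a surjective homomorphism from `B(X)`, `X` separable, onto `B(Y)` does not
allow a bounded sequence `V n` and operators `T S`, `S ⊆ ℕ`, with `ψ (V n * T S) = 1` for `n ∈ S` and
`ψ (V n * T S) = 0` for `n ∉ S`. -/

set_option autoImplicit false

open Filter Topology Set

namespace Pool.Agent.W668.Shai

open Pool.Agent.H148R3

variable {𝕜 : Type*} [RCLike 𝕜]
variable {X : Type*} [NormedAddCommGroup X] [NormedSpace 𝕜 X] [CompleteSpace X]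
  [TopologicalSpace.SeparableSpace X]
variable {Y : Type*} [NormedAddCommGroup Y] [NormedSpace 𝕜 Y] [CompleteSpace Y] [Nontrivial Y]

/-- **Key lemma.** -/
theorem key2 (ψ : (X →L[𝕜] X) →ₐ[𝕜] (Y →L[𝕜] Y)) (hψ : Function.Surjective ψ)
    (V : ℕ → (X →L[𝕜] X)) (c : ℝ) (hV : ∀ n, ‖V n‖ ≤ c)
    (hT : ∀ S : Set ℕ, ∃ T : X →L[𝕜] X, ∀ n, (n ∈ S → ψ (V n * T) = 1) ∧ (n ∉ S → ψ (V n * T) = 0)) :
    False := by
  classical
  obtain ⟨Cψ, hCψ0, hCψ⟩ := auto_cont ψ hψ
  have hc : 0 ≤ c := (norm_nonneg _).trans (hV 0)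
  obtain ⟨y0, hy0⟩ := exists_ne (0 : Y)
  obtain ⟨f0', -, hf0'⟩ := exists_dual_vector 𝕜 y0 (norm_ne_zero_iff.2 hy0)
  have hn0 : ((‖y0‖ : ℝ) : 𝕜) ≠ 0 := by simpa using hy0
  set f0 : StrongDual 𝕜 Y := ((‖y0‖ : ℝ) : 𝕜)⁻¹ • f0' with hf0def
  have hf0 : f0 y0 = 1 := by
    rw [hf0def, smul_apply, hf0', smul_eq_mul, inv_mul_cancel₀ hn0]
  choose T hT using hT
  set w : ℕ → StrongDual 𝕜 Y := fun n => f0.comp (ψ (V n)) with hw
  set r : ℝ := ‖f0‖ * (Cψ * c) with hr
  have hr0 : 0 ≤ r := by positivity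
  have hwn : ∀ n, ‖w n‖ ≤ r := by
    intro n
    refine (ContinuousLinearMap.opNorm_comp_le _ _).trans ?_
    rw [hr]
    gcongr
    exact (hCψ _).trans (by gcongr; exact hV n)
  set yS : Set ℕ → Y := fun S => ψ (T S) y0 with hyS
  have hwy : ∀ S n, w n (yS S) = if n ∈ S then 1 else 0 := by
    intro S n
    have h1 : w n (yS S) = f0 (ψ (V n * T S) y0) := by
      simp only [hw, hyS, map_mul]
      rfl
    rw [h1]
    by_cases hn : n ∈ S
    · rw [(hT S n).1 hn, if_pos hn]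
      exact hf0
    · rw [(hT S n).2 hn, if_neg hn]
      simp
  have hΦ : ∀ u : Ultrafilter ℕ, ∃ φ : StrongDual 𝕜 Y,
      ∀ v : Y, Tendsto (fun n => w n v) u (𝓝 (φ v)) := by
    intro u
    have hcomp := WeakDual.isCompact_closedBall (𝕜 := 𝕜) (E := Y) 0 r
    set W : ℕ → WeakDual 𝕜 Y := fun n => StrongDual.toWeakDual (w n) with hW
    have hmem : ∀ n, W n ∈ WeakDual.toStrongDual ⁻¹' Metric.closedBall (0 : StrongDual 𝕜 Y) r := by
      intro n
      rw [mem_preimage, mem_closedBall_zero_iff]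
      exact hwn n
    obtain ⟨φ, -, hφ⟩ := hcomp.ultrafilter_le_nhds (u.map W) (by
      rw [le_principal_iff]
      exact Filter.mem_map.2 (univ_mem' hmem))
    refine ⟨WeakDual.toStrongDual φ, fun v => ?_⟩
    have h3 : Tendsto W u (𝓝 φ) := hφ
    exact ((WeakDual.eval_continuous v).tendsto φ).comp h3
  choose φ hφ using hΦ
  -- the injection
  have hinj : Function.Injective (fun E : Set (Set ℕ) => rk (φ (uE E)) y0) := by
    intro E E' hEE
    have h2 : φ (uE E) = φ (uE E') := by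
      ext v
      have h3 := congrArg (fun T : Y →L[𝕜] Y => f0 (T v)) hEE
      simp only [ContinuousLinearMap.smulRight_apply, map_smul, hf0, smul_eq_mul, mul_one] at h3
      exact h3
    apply uE_inj
    by_contra hne
    obtain ⟨S, hS, hS'⟩ : ∃ S, S ∈ uE E ∧ S ∉ uE E' := by
      by_contra hcon
      push Not at hcon
      apply hne
      have h4 : ((uE E' : Ultrafilter ℕ) : Filter ℕ) ≤ (uE E : Filter ℕ) := fun S hS => hcon S hS
      exact (Ultrafilter.coe_le_coe.1 h4).symm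
    have h5 : Tendsto (fun n => w n (yS S)) (uE E) (𝓝 1) := by
      refine tendsto_const_nhds.congr' ?_
      filter_upwards [hS] with n hn
      rw [hwy, if_pos hn]
    have h6 : Tendsto (fun n => w n (yS S)) (uE E') (𝓝 0) := by
      refine tendsto_const_nhds.congr' ?_
      filter_upwards [Ultrafilter.compl_mem_iff_notMem.2 hS'] with n hn
      rw [hwy, if_neg hn]
    have h7 := tendsto_nhds_unique h5 (hφ (uE E) (yS S))
    have h8 := tendsto_nhds_unique h6 (hφ (uE E') (yS S))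
    rw [h2, ← h8] at h7
    exact one_ne_zero h7
  obtain ⟨G, hG⟩ := ops_inj (𝕜 := 𝕜) (X := X)
  choose pre hpre using fun S : Y →L[𝕜] Y => hψ S
  have hpre_inj : Function.Injective pre := by
    intro S S' hSS
    rw [← hpre S, hSS, hpre]
  obtain ⟨e⟩ : Nonempty (ℕ × ℕ × ℕ ≃ ℕ) := by
    exact ⟨(Equiv.prodCongr (Equiv.refl ℕ) Nat.pairEquiv).trans Nat.pairEquiv⟩
  have hfinal : Function.Injective (fun E : Set (Set ℕ) =>
      e '' (G (pre (rk (φ (uE E)) y0)))) := by
    intro E E' hEE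
    have h9 : G (pre (rk (φ (uE E)) y0)) = G (pre (rk (φ (uE E')) y0)) :=
      (Set.image_eq_image e.injective).1 hEE
    exact hinj (hpre_inj (hG h9))
  exact Function.cantor_injective _ hfinal

/-- A surjective multiplicative linear map between unital algebras is unital. -/
lemma map_one_of_surj {R A B : Type*} [CommSemiring R] [Ring A] [Ring B] [Algebra R A] [Algebra R B]
    (ψ : A →ₙₐ[R] B) (hψ : Function.Surjective ψ) : ψ 1 = 1 := by
  obtain ⟨a, ha⟩ := hψ 1
  calc ψ 1 = ψ 1 * 1 := (mul_one _).symm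
    _ = ψ 1 * ψ a := by rw [ha]
    _ = ψ (1 * a) := (map_mul ψ 1 a).symm
    _ = 1 := by rw [one_mul, ha]

/-- The algebra homomorphism attached to a surjective multiplicative linear map. -/
noncomputable def toAlg {R A B : Type*} [CommSemiring R] [Ring A] [Ring B] [Algebra R A] [Algebra R B]
    (ψ : A →ₙₐ[R] B) (hψ : Function.Surjective ψ) : A →ₐ[R] B :=
  AlgHom.ofLinearMap (ψ : A →ₗ[R] B) (map_one_of_surj ψ hψ) (map_mul ψ)

end Pool.Agent.W668.Shai
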