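import Mathlib
import Pool.Agent.W668.Shai.Key2

/-! `C[0,1]` has the SHAI property. -/

set_option autoImplicit false

open Filter Topology Set unitInterval

namespace Pool.Agent.W668.Shai

open Pool.Agent.H148R3

variable {𝕜 : Type*} [RCLike 𝕜]

section General

variable {K : Type*} [TopologicalSpace K] [CompactSpace K]

/-- composition with a continuous self-map. -/
noncomputable def compOp (g : C(K, K)) : C(K, 𝕜) →L[𝕜] C(K, 𝕜) :=
  LinearMap.mkContinuous
    { toFun := fun f => f.comp g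
      map_add' := fun _ _ => rfl
      map_smul' := fun _ _ => rfl } 1 (by
    intro f
    rw [one_mul]
    refine (ContinuousMap.norm_le _ (norm_nonneg _)).2 fun x => ?_
    exact ContinuousMap.norm_coe_le_norm f (g x))

@[simp] lemma compOp_apply (g : C(K, K)) (f : C(K, 𝕜)) (x : K) : compOp g f x = f (g x) := rfl

lemma compOp_norm (g : C(K, K)) : ‖(compOp g : C(K, 𝕜) →L[𝕜] C(K, 𝕜))‖ ≤ 1 :=
  LinearMap.mkContinuous_norm_le _ zero_le_one _

/-- Gluing: disjointly supported bumps `h n`, maps `r n`, operators `R n → 0`. -/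
lemma exists_glue (h : ℕ → C(K, ℝ)) (h01 : ∀ n x, h n x ∈ Icc (0 : ℝ) 1)
    (hdisj : ∀ m n x, m ≠ n → h m x ≠ 0 → h n x = 0) (r : ℕ → C(K, K))
    (R : ℕ → (C(K, 𝕜) →L[𝕜] C(K, 𝕜)))
    (hR : ∀ f, Tendsto (fun n => R n f) atTop (𝓝 0)) (S : Set ℕ) :
    ∃ T : C(K, 𝕜) →L[𝕜] C(K, 𝕜), ∀ n x, h n x = 1 →
      ∀ f, (n ∈ S → T f x = R n f (r n x)) ∧ (n ∉ S → T f x = 0) := by
  classical
  obtain ⟨C, hC⟩ : ∃ C, ∀ n, ‖R n‖ ≤ C := by
    apply banach_steinhaus
    intro f
    obtain ⟨C, hC⟩ := ((hR f).norm).bddAbove_range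
    exact ⟨C, fun n => hC ⟨n, rfl⟩⟩
  have hC0 : 0 ≤ C := (norm_nonneg _).trans (hC 0)
  -- the terms
  set t : ℕ → C(K, 𝕜) → C(K, 𝕜) := fun n f =>
    if n ∈ S then (⟨fun x => ((h n x : ℝ) : 𝕜) * R n f (r n x), by fun_prop⟩ : C(K, 𝕜)) else 0
    with ht
  have htx : ∀ n f x, t n f x = if n ∈ S then ((h n x : ℝ) : 𝕜) * R n f (r n x) else 0 := by
    intro n f x
    by_cases hn : n ∈ S
    · simp [ht, hn]
    · simp [ht, hn]
  have htn : ∀ n f x, ‖t n f x‖ ≤ ‖R n f‖ := by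
    intro n f x
    rw [htx]
    by_cases hn : n ∈ S
    · rw [if_pos hn, norm_mul, RCLike.norm_ofReal, abs_of_nonneg (h01 n x).1]
      calc h n x * ‖R n f (r n x)‖ ≤ 1 * ‖R n f‖ := by
            gcongr
            · exact (h01 n x).2
            · exact ContinuousMap.norm_coe_le_norm _ _
        _ = _ := one_mul _
    · rw [if_neg hn, norm_zero]
      exact norm_nonneg _
  have ht0 : ∀ n f x, h n x = 0 → t n f x = 0 := by
    intro n f x hx
    rw [htx, hx]
    simp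
  -- finite sums
  have hfin : ∀ (F : Finset ℕ) (f : C(K, 𝕜)) (M : ℝ), 0 ≤ M → (∀ n ∈ F, ‖R n f‖ ≤ M) →
      ‖∑ n ∈ F, t n f‖ ≤ M := by
    intro F f M hM hF
    refine (ContinuousMap.norm_le _ hM).2 fun x => ?_
    rw [ContinuousMap.sum_apply]
    by_cases hx : ∃ m ∈ F, h m x ≠ 0
    · obtain ⟨m, hm, hmx⟩ := hx
      rw [Finset.sum_eq_single_of_mem m hm]
      · exact (htn m f x).trans (hF m hm)
      · intro n _ hnm
        exact ht0 n f x (hdisj m n x hnm.symm hmx)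
    · push Not at hx
      rw [Finset.sum_eq_zero fun n hn => ht0 n f x (hx n hn), norm_zero]
      exact hM
  have hsum : ∀ f, Summable (fun n => t n f) := by
    intro f
    rw [summable_iff_vanishing_norm]
    intro ε hε
    obtain ⟨N, hN⟩ := (Metric.tendsto_atTop.1 (hR f)) (ε / 2) (half_pos hε)
    refine ⟨Finset.range N, fun F hF => ?_⟩
    refine (hfin F f (ε / 2) (half_pos hε).le fun n hn => ?_).trans_lt (half_lt_self hε)
    have hnN : N ≤ n := by
      by_contra hlt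
      exact Finset.disjoint_left.1 hF hn (Finset.mem_range.2 (not_le.1 hlt))
    have := hN n hnN
    rw [dist_zero_right] at this
    exact this.le
  have hev : ∀ f x, (∑' n, t n f) x = ∑' n, t n f x := by
    intro f x
    exact ((ContinuousMap.evalCLM 𝕜 x).hasSum (hsum f).hasSum).tsum_eq.symm
  have htadd : ∀ n f g, t n (f + g) = t n f + t n g := by
    intro n f g
    ext x
    rw [ContinuousMap.add_apply, htx, htx, htx]
    split_ifs
    · rw [map_add, ContinuousMap.add_apply, mul_add]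
    · simp
  have htsmul : ∀ n (c : 𝕜) f, t n (c • f) = c • t n f := by
    intro n c f
    ext x
    rw [ContinuousMap.smul_apply, htx, htx]
    split_ifs
    · rw [map_smul, ContinuousMap.smul_apply, smul_eq_mul, smul_eq_mul]
      ring
    · simp
  refine ⟨LinearMap.mkContinuous
    { toFun := fun f => ∑' n, t n f
      map_add' := fun f g => by
        simp only [htadd]
        exact (hsum f).tsum_add (hsum g)
      map_smul' := fun c f => by
        simp only [htsmul, RingHom.id_apply]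
        exact (hsum f).tsum_const_smul c } C ?_, ?_⟩
  · intro f
    change ‖∑' n, t n f‖ ≤ C * ‖f‖
    refine le_of_tendsto (hsum f).hasSum.norm (Filter.Eventually.of_forall fun F => ?_)
    refine hfin F f _ (by positivity) fun n _ => ?_
    exact ((R n).le_opNorm f).trans (by gcongr; exact hC n)
  · intro n x hx f
    change (n ∈ S → (∑' n, t n f) x = _) ∧ (n ∉ S → (∑' n, t n f) x = _)
    rw [hev, tsum_eq_single n]
    · rw [htx, hx]
      constructor
      · intro hn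
        rw [if_pos hn]
        simp
      · intro hn
        rw [if_neg hn]
    · intro m hm
      exact ht0 m f x (hdisj n m x hm.symm (by rw [hx]; exact one_ne_zero))

end General

section Unit

/-- the affine embedding of `[0,1]` onto `[5/4, 7/4] / 2 ^ (n+1)`. -/
noncomputable def sm (n : ℕ) : C(I, I) :=
  ⟨fun t => projIcc (0 : ℝ) 1 zero_le_one ((5 / 4 + (t : ℝ) / 2) / 2 ^ (n + 1)), by fun_prop⟩

/-- its retraction. -/
noncomputable def rm (n : ℕ) : C(I, I) :=
  ⟨fun x => projIcc (0 : ℝ) 1 zero_le_one (((x : ℝ) * 2 ^ (n + 1) - 5 / 4) * 2), by fun_prop⟩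

lemma sm_val (n : ℕ) (t : I) : ((sm n t : I) : ℝ) = (5 / 4 + (t : ℝ) / 2) / 2 ^ (n + 1) := by
  have h0 := t.2.1
  have h1 := t.2.2
  have h2 : (0 : ℝ) < 2 ^ (n + 1) := by positivity
  have h3 : (2 : ℝ) ≤ 2 ^ (n + 1) := by
    have : (1 : ℝ) ≤ 2 ^ n := one_le_pow₀ one_le_two
    rw [pow_succ]
    linarith
  change ((projIcc (0 : ℝ) 1 zero_le_one ((5 / 4 + (t : ℝ) / 2) / 2 ^ (n + 1)) : I) : ℝ) = _
  rw [projIcc_of_mem zero_le_one (x := (5 / 4 + (t : ℝ) / 2) / 2 ^ (n + 1))]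
  constructor
  · positivity
  · rw [div_le_one h2]
    linarith

lemma rm_sm (n : ℕ) (t : I) : rm n (sm n t) = t := by
  have h2 : (0 : ℝ) < 2 ^ (n + 1) := by positivity
  have h3 : (((sm n t : I) : ℝ) * 2 ^ (n + 1) - 5 / 4) * 2 = t := by
    rw [sm_val]
    field_simp
    ring
  have h4 : rm n (sm n t) =
      projIcc (0 : ℝ) 1 zero_le_one ((((sm n t : I) : ℝ) * 2 ^ (n + 1) - 5 / 4) * 2) := rfl
  rw [h4, h3]
  exact projIcc_val zero_le_one t

/-- the region containing the `n`-th copy. -/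
def reg (n : ℕ) : Set I := {x | 1 < (x : ℝ) * 2 ^ (n + 1) ∧ (x : ℝ) * 2 ^ (n + 1) < 2}

lemma reg_disj {m n : ℕ} {x : I} (hm : x ∈ reg m) (hn : x ∈ reg n) : m = n := by
  have key : ∀ {a b : ℕ} (_ : x ∈ reg a) (_ : x ∈ reg b), ¬ a < b := by
    intro a b ha hb hab
    obtain ⟨h1, h2⟩ := ha
    obtain ⟨h3, h4⟩ := hb
    have h5 : (2 : ℝ) ^ (a + 1) * 2 ≤ 2 ^ (b + 1) := by
      rw [← pow_succ]
      exact pow_le_pow_right₀ one_le_two (by omega)
    have hx := x.2.1
    nlinarith [mul_le_mul_of_nonneg_left h5 hx]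
  rcases lt_trichotomy m n with h | h | h
  · exact (key hm hn h).elim
  · exact h
  · exact (key hn hm h).elim

lemma reg_open (n : ℕ) : IsOpen (reg n) := by
  have h1 : IsOpen {x : I | 1 < (x : ℝ) * 2 ^ (n + 1)} := isOpen_lt continuous_const (by fun_prop)
  have h2 : IsOpen {x : I | (x : ℝ) * 2 ^ (n + 1) < 2} := isOpen_lt (by fun_prop) continuous_const
  exact h1.inter h2

lemma sm_mem (n : ℕ) (t : I) : sm n t ∈ reg n := by
  have h0 := t.2.1
  have h1 := t.2.2
  have h2 : (0 : ℝ) < 2 ^ (n + 1) := by positivity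
  have h3 : ((sm n t : I) : ℝ) * 2 ^ (n + 1) = 5 / 4 + (t : ℝ) / 2 := by
    rw [sm_val]
    field_simp
  constructor
  · rw [h3]; linarith
  · rw [h3]; linarith

lemma exists_bump (n : ℕ) : ∃ h : C(I, ℝ), (∀ x, h x ∈ Icc (0 : ℝ) 1) ∧ (∀ x, h x ≠ 0 → x ∈ reg n) ∧
    ∀ t, h (sm n t) = 1 := by
  have h1 : IsClosed (range (sm n)) := (isCompact_range (sm n).continuous).isClosed
  have h2 : Disjoint (reg n)ᶜ (range (sm n)) := by
    rw [Set.disjoint_left]
    rintro x hx ⟨t, rfl⟩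
    exact hx (sm_mem n t)
  obtain ⟨h, hh0, hh1, hh⟩ := exists_continuous_zero_one_of_isClosed (reg_open n).isClosed_compl h1 h2
  refine ⟨h, hh, fun x hx => ?_, fun t => hh1 ⟨t, rfl⟩⟩
  by_contra hxr
  exact hx (hh0 hxr)

/-- the Bernstein function with values in `𝕜`. -/
noncomputable def bK (n k : ℕ) : C(I, 𝕜) := ⟨fun x => ((bernstein n k x : ℝ) : 𝕜), by fun_prop⟩

/-- the Bernstein operator. -/
noncomputable def Bop (n : ℕ) : C(I, 𝕜) →L[𝕜] C(I, 𝕜) :=
  ∑ k : Fin (n + 1), rk (ContinuousMap.evalCLM 𝕜 (bernstein.z k)) (bK n k)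

lemma Bop_eq (n : ℕ) (f : C(I, 𝕜)) : Bop n f = bernsteinApproximation n f := by
  ext x
  rw [bernsteinApproximation.apply]
  simp only [Bop, _root_.sum_apply, ContinuousMap.sum_apply]
  refine Finset.sum_congr rfl fun k _ => ?_
  simp only [ContinuousLinearMap.smulRight_apply, ContinuousMap.smul_apply, bK,
    ContinuousMap.evalCLM_apply, ContinuousMap.coe_mk, smul_eq_mul]
  rw [RCLike.real_smul_eq_coe_mul, mul_comm]

/-- `C[0,1]` has the SHAI property. -/
theorem shai_C01 {Y : Type*} [NormedAddCommGroup Y] [NormedSpace 𝕜 Y] [CompleteSpace Y]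
    [Nontrivial Y] (φ : (C(I, 𝕜) →L[𝕜] C(I, 𝕜)) →ₙₐ[𝕜] (Y →L[𝕜] Y))
    (hφ : Function.Surjective φ) : Function.Injective φ := by
  have hφ1 : φ 1 = 1 := by
    obtain ⟨a, ha⟩ := hφ 1
    calc φ 1 = φ 1 * 1 := (mul_one _).symm
      _ = φ 1 * φ a := by rw [ha]
      _ = φ (1 * a) := (map_mul φ 1 a).symm
      _ = 1 := by rw [one_mul, ha]
  set ψ : (C(I, 𝕜) →L[𝕜] C(I, 𝕜)) →ₐ[𝕜] (Y →L[𝕜] Y) :=
    AlgHom.ofLinearMap (φ : (C(I, 𝕜) →L[𝕜] C(I, 𝕜)) →ₗ[𝕜] (Y →L[𝕜] Y)) hφ1 (map_mul φ) with hψdef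
  have hψφ : ∀ T, ψ T = φ T := fun T => rfl
  have hψ : Function.Surjective ψ := hφ
  rw [injective_iff_map_eq_zero]
  intro T0 hT0
  by_contra hne
  have hrk : ∀ (f : StrongDual 𝕜 C(I, 𝕜)) (x : C(I, 𝕜)), ψ (rk f x) = 0 :=
    rank_one_killed ψ T0 hne hT0
  have hB : ∀ n, ψ (Bop n) = 0 := by
    intro n
    rw [Bop, map_sum]
    exact Finset.sum_eq_zero fun k _ => hrk _ _
  choose h h01 hreg hs using exists_bump
  have hdisj : ∀ m n x, m ≠ n → h m x ≠ 0 → h n x = 0 := by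
    intro m n x hmn hx
    by_contra hx'
    exact hmn (reg_disj (hreg m x hx) (hreg n x hx'))
  set R : ℕ → (C(I, 𝕜) →L[𝕜] C(I, 𝕜)) := fun n => 1 - Bop n with hR
  have hR0 : ∀ f, Tendsto (fun n => R n f) atTop (𝓝 0) := by
    intro f
    have h1 : Tendsto (fun n => f - bernsteinApproximation n f) atTop (𝓝 (f - f)) :=
      tendsto_const_nhds.sub (bernsteinApproximation_uniform f)
    rw [sub_self] at h1
    refine h1.congr fun n => ?_
    rw [← Bop_eq]
    rfl
  refine key2 ψ hψ (fun n => compOp (sm n)) 1 (fun n => compOp_norm _) fun S => ?_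
  obtain ⟨T, hT⟩ := exists_glue h h01 hdisj rm R hR0 S
  refine ⟨T, fun n => ⟨fun hn => ?_, fun hn => ?_⟩⟩
  · have h1 : compOp (sm n) * T = R n := by
      ext f x
      change T f (sm n x) = R n f x
      rw [(hT n (sm n x) (hs n x) f).1 hn, rm_sm]
    rw [h1, hR, map_sub, map_one, hB, sub_zero]
  · have h1 : compOp (sm n) * T = 0 := by
      ext f x
      change T f (sm n x) = 0
      rw [(hT n (sm n x) (hs n x) f).2 hn]
    rw [h1, map_zero]

end Unit

end Pool.Agent.W668.Shai
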